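import Pool.Agent.R30.C4.Final

set_option autoImplicit false

/-!
A maximal 1-plane graph of order 27 and connectivity exactly 5 that has exactly
`3/5 (27 - 2) = 15` crossings and exactly `18/5 (27 - 2) = 90` edges.

The skeleton of uncrossed edges is a plane graph with 20 triangular and 15 quadrangular faces in
which every edge lies between a triangle and a quadrangle; each quadrangle contains its two
crossing diagonals.
-/

namespace Pool.Agent.Results.MP_c4df14_co.TightKappaFive

open Pool.Agent.R30.C4

/-- There is a maximal 1-plane graph of order `27` with vertex connectivity exactly `5` that has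
both `3/5 (n - 2)` crossing points and `18/5 (n - 2)` edges, for `n = 27`. -/
theorem result : ∃ (G : SimpleGraph (Fin 27)) (D : Drawing G),
    D.IsMaximalOnePlane ∧ vertexConnectivity G = 5 ∧ D.crossingPoints.Finite ∧
      (D.crossingPoints.ncard : ℚ) = 3 / 5 * (27 - 2) ∧
      (G.edgeSet.ncard : ℚ) = 18 / 5 * (27 - 2) := by
  refine ⟨G, D, D_maximal, G_kappa, ?_, ?_, ?_⟩
  · rw [D_crossingPoints]
    exact (Set.finite_Ico 27 42).image _
  · rw [D_crossings]; norm_num
  · rw [G_edges]; norm_num

end Pool.Agent.Results.MP_c4df14_co.TightKappaFive
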